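import Pool.Agent.Helper3.FewP.Goals2

/-!
# MP_d3128a_ag, project FewPoints, packet STRIP-ECF: the coefficients of the generic entry
-/

set_option autoImplicit false

namespace Pool.Agent.Helper23.FewP.ECF

open Pool.Agent.Helper3.FewP

open scoped BigOperators

/-- `s (s - 1) / 2` is at least `s - 1`. -/
theorem half_pos (s : ℤ) (hs : 1 ≤ s) : s - 1 ≤ s * (s - 1) / 2 := by
  rw [Int.le_ediv_iff_mul_le (by norm_num)]
  rcases eq_or_lt_of_le hs with h | h
  · rw [← h]; norm_num
  · have h1 : (s - 1) * 2 ≤ (s - 1) * s := mul_le_mul_of_nonneg_left (by omega) (by omega)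
    linarith

theorem half_neg (σ : ℤ) (hσ : 0 ≤ σ) : σ ≤ (-σ) * (-σ - 1) / 2 := by
  rw [Int.le_ediv_iff_mul_le (by norm_num)]
  rcases eq_or_lt_of_le hσ with h | h
  · rw [← h]; norm_num
  · nlinarith

theorem bound {k r : ℕ} (hr : r < k) (s : ℤ) :
    0 ≤ ee k r s ∧ -(ee k r s) - 1 ≤ s ∧ s ≤ ee k r s + 1 := by
  have hk1 : (1 : ℤ) ≤ k := by
    have : 1 ≤ k := by omega
    exact_mod_cast this
  have hr0 : (0 : ℤ) ≤ r := Int.natCast_nonneg r
  have hrk : (r : ℤ) + 1 ≤ k := by exact_mod_cast hr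
  unfold ee
  rcases le_or_gt 1 s with h | h
  · have h1 := half_pos s h
    generalize s * (s - 1) / 2 = u at h1 ⊢
    have h2 : (k : ℤ) * (s - 1) ≤ k * u := mul_le_mul_of_nonneg_left h1 (by linarith)
    have h3 : 0 ≤ (r : ℤ) * s := by positivity
    have h4 : 1 * (s - 1) ≤ (k : ℤ) * (s - 1) := mul_le_mul_of_nonneg_right hk1 (by linarith)
    refine ⟨?_, ?_, ?_⟩ <;> linarith
  · obtain ⟨σ, hσ⟩ : ∃ σ : ℤ, σ = -s := ⟨-s, rfl⟩
    have hs : s = -σ := by omega
    have hσ0 : 0 ≤ σ := by omega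
    have h1 := half_neg σ hσ0
    rw [hs]
    generalize (-σ) * (-σ - 1) / 2 = u at h1 ⊢
    have h2 : (k : ℤ) * σ ≤ k * u := mul_le_mul_of_nonneg_left h1 (by linarith)
    have h3 : (r : ℤ) * σ + σ ≤ k * σ := by nlinarith
    have h4 : (r : ℤ) * (-σ) = -((r : ℤ) * σ) := by ring
    rw [h4]
    refine ⟨?_, ?_, ?_⟩ <;> linarith

theorem t : G_ECF := by
  classical
  intro σ k r j w g hr
  refine ⟨?_, ?_, fun s => bound hr s⟩
  · intro e δ hne
    unfold gent at hne
    rw [PowerSeries.coeff_mk, AddMonoidAlgebra.coeff_sum, Finsupp.finsetSum_apply] at hne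
    obtain ⟨s, -, hs⟩ := Finset.exists_ne_zero_of_sum_ne_zero hne
    by_cases he : ee k r s = e
    · rw [if_pos he, AddMonoidAlgebra.coeff_single, Finsupp.single_apply] at hs
      by_cases h : (-(j * s), w (r + k * s)) = δ
      · exact ⟨s, he, h.symm⟩
      · rw [if_neg h] at hs
        exact absurd rfl hs
    · rw [if_neg he, AddMonoidAlgebra.coeff_zero, Finsupp.zero_apply] at hs
      exact absurd rfl hs
  · intro hw e s he
    unfold gent
    rw [PowerSeries.coeff_mk, AddMonoidAlgebra.coeff_sum, Finsupp.finsetSum_apply]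
    rw [Finset.sum_eq_single s]
    · rw [if_pos he, AddMonoidAlgebra.coeff_single, Finsupp.single_eq_same]
    · intro s' _ hs'
      by_cases he' : ee k r s' = e
      · rw [if_pos he', AddMonoidAlgebra.coeff_single, Finsupp.single_apply, if_neg]
        intro h
        have h1 : (r : ℤ) + k * s' = r + k * s := hw (Prod.ext_iff.1 h).2
        have hk : (k : ℤ) ≠ 0 := by
          have : 1 ≤ k := by omega
          exact_mod_cast (by omega : k ≠ 0)
        exact hs' (mul_left_cancel₀ hk (add_left_cancel h1))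
      · rw [if_neg he', AddMonoidAlgebra.coeff_zero, Finsupp.zero_apply]
    · intro hs
      exfalso
      apply hs
      have hb := bound hr s
      rw [he] at hb
      exact Finset.mem_Icc.2 ⟨hb.2.1, hb.2.2⟩

end Pool.Agent.Helper23.FewP.ECF
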